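import Pool.Agent.H174.GP.StJ

set_option autoImplicit false

/-!
# The exponent is at least √3/12

Adapted from the proof of the lower bound 1/8 by helper348 (adaptation by helper747).
-/

open MeasureTheory ProbabilityTheory Finset Filter Topology

namespace Pool.Agent.H747.GP174.R3

open Pool.Agent.H174.GP

/-! ### grid points -/

theorem Wg_ge (h : ℝ) (i : ℕ) : (1 + h) ^ i ≤ (Wg h i : ℝ) := Nat.le_ceil _

theorem one_le_Q {h : ℝ} (hh : 0 < h) (i : ℕ) : 1 ≤ (1 + h) ^ i := one_le_pow₀ (by linarith)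

theorem Wg_lt {h : ℝ} (hh : 0 < h) (i : ℕ) : (Wg h i : ℝ) < (1 + h) ^ i + 1 :=
  Nat.ceil_lt_add_one (by positivity)

theorem Wg_mono {h : ℝ} (hh : 0 < h) : Monotone (Wg h) := fun _ _ hij =>
  Nat.ceil_mono (pow_le_pow_right₀ (by linarith) hij)

theorem Wg_le2 {h : ℝ} (hh : 0 < h) (i : ℕ) : (Wg h i : ℝ) ≤ 2 * (1 + h) ^ i := by
  have h1 := Wg_lt hh i
  have h2 := one_le_Q hh i
  linarith

theorem Wg_pos {h : ℝ} (hh : 0 < h) (i : ℕ) : 1 ≤ Wg h i := by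
  have h1 := (one_le_Q hh i).trans (Wg_ge h i)
  exact_mod_cast h1

theorem Wg_ratio {h : ℝ} (hh : 0 < h) (hh1 : h ≤ 1) {i k : ℕ} (hi : 4 / h ≤ (1 + h) ^ i)
    (hik : i < k) : (1 + h / 2) * (Wg h i : ℝ) ≤ Wg h k := by
  have h1 := Wg_lt hh i
  have h2 := Wg_ge h k
  have h3 : (1 + h) ^ (i + 1) ≤ (1 + h) ^ k := pow_le_pow_right₀ (by linarith) hik
  rw [pow_succ] at h3
  rw [div_le_iff₀ hh] at hi
  have h4 := mul_le_mul_of_nonneg_left h1.le (by linarith : 0 ≤ 1 + h / 2)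
  nlinarith

/-! ### the points `xr` -/

theorem r3_sq : Real.sqrt 3 * Real.sqrt 3 = 3 := Real.mul_self_sqrt (by norm_num)

theorem r3_lo : (17 / 10 : ℝ) ≤ Real.sqrt 3 := Real.le_sqrt_of_sq_le (by norm_num)

theorem r3_hi : Real.sqrt 3 ≤ (9 / 5 : ℝ) := by
  rw [Real.sqrt_le_left (by norm_num)]
  norm_num

theorem xr_mono : Monotone xr := fun a b hab => by
  unfold xr
  exact Nat.ceil_mono (Real.rpow_le_rpow (Nat.cast_nonneg _) (by exact_mod_cast hab)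
    (Real.sqrt_nonneg _))

theorem le_xr {w : ℕ} (hw : 1 ≤ w) : w ≤ xr w := by
  have hw1 : (1 : ℝ) ≤ w := by exact_mod_cast hw
  have h1 : (w : ℝ) ≤ (w : ℝ) ^ Real.sqrt 3 := by
    have h2 := Real.rpow_le_rpow_of_exponent_le hw1 (by linarith [r3_lo] : (1 : ℝ) ≤ Real.sqrt 3)
    rwa [Real.rpow_one] at h2
  have h3 : (w : ℝ) ≤ (xr w : ℝ) := h1.trans (Nat.le_ceil _)
  exact_mod_cast h3

theorem xr_le {w : ℕ} (hw : 1 ≤ w) : (xr w : ℝ) ≤ 2 * (w : ℝ) ^ Real.sqrt 3 := by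
  have hw1 : (1 : ℝ) ≤ w := by exact_mod_cast hw
  have h1 : 1 ≤ (w : ℝ) ^ Real.sqrt 3 := Real.one_le_rpow hw1 (Real.sqrt_nonneg _)
  have h2 : (xr w : ℝ) < (w : ℝ) ^ Real.sqrt 3 + 1 := by
    unfold xr
    exact Nat.ceil_lt_add_one (by linarith)
  linarith

/-! ### the walk -/

theorem S_congr {ω ω' : ℕ → ℝ} {b j : ℕ} (h : ∀ i ∈ Finset.Icc 1 b, ω i = ω' i) (hj : j ≤ b) :
    S ω j = S ω' j := by
  unfold S
  refine Finset.sum_congr rfl (fun i hi => ?_)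
  rw [Finset.mem_Icc] at hi
  exact h i (Finset.mem_Icc.2 ⟨hi.1, hi.2.trans hj⟩)

theorem Iw_congr {ω ω' : ℕ → ℝ} {b j : ℕ} (h : ∀ i ∈ Finset.Icc 1 b, ω i = ω' i) (hj : j ≤ b) :
    Iw ω j = Iw ω' j := by
  unfold Iw
  refine Finset.sum_congr rfl (fun i hi => ?_)
  rw [Finset.mem_Icc] at hi
  exact S_congr h (hi.2.trans hj)

theorem Iw_mono {ω ω' : ℕ → ℝ} (h : ω ≤ ω') (j : ℕ) : Iw ω j ≤ Iw ω' j := by
  unfold Iw S
  exact Finset.sum_le_sum (fun i _ => Finset.sum_le_sum (fun l _ => h l))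

theorem S_meas (j : ℕ) : Measurable fun ω : ℕ → ℝ => S ω j := by
  unfold S
  exact Finset.measurable_sum _ (fun i _ => measurable_pi_apply i)

theorem Iw_meas (j : ℕ) : Measurable fun ω : ℕ → ℝ => Iw ω j := by
  unfold Iw
  exact Finset.measurable_sum _ (fun i _ => S_meas i)

theorem set_meas (s : Finset ℕ) : MeasurableSet {z : ℕ → ℝ | ∀ j ∈ s, 0 ≤ Iw z j} := by
  have e : {z : ℕ → ℝ | ∀ j ∈ s, 0 ≤ Iw z j} = ⋂ j ∈ s, {z : ℕ → ℝ | 0 ≤ Iw z j} := by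
    ext z
    simp
  rw [e]
  exact Finset.measurableSet_biInter s
    (fun j _ => measurableSet_le measurable_const (Iw_meas j))

theorem harris_step (h6 : S_gharris) (a b : ℕ) (hab : a ≤ b) :
    aG a * GA.real {z | ∀ w ∈ Finset.Icc a b, 0 ≤ Iw z w} ≤ aG b := by
  have h := h6 (Finset.Icc 1 b) (Finset.range 2) (fun i => if i = 0 then
    {z : ℕ → ℝ | ∀ j ∈ Finset.Icc 1 a, 0 ≤ Iw z j} else
    {z : ℕ → ℝ | ∀ j ∈ Finset.Icc a b, 0 ≤ Iw z j}) (fun i _ => by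
      by_cases hi : i = 0
      · simp only [hi, if_true]
        exact set_meas _
      · simp only [hi, if_false]
        exact set_meas _) (fun i _ => by
      by_cases hi : i = 0
      · simp only [hi, if_true]
        intro ω ω' hω h1 j hj
        have hj2 := (Finset.mem_Icc.1 hj).2
        rw [← Iw_congr hω (hj2.trans hab)]
        exact h1 j hj
      · simp only [hi, if_false]
        intro ω ω' hω h1 j hj
        have hj2 := (Finset.mem_Icc.1 hj).2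
        rw [← Iw_congr hω hj2]
        exact h1 j hj) (fun i _ => by
      by_cases hi : i = 0
      · simp only [hi, if_true]
        intro ω ω' hω h1 j hj
        exact (h1 j hj).trans (Iw_mono hω j)
      · simp only [hi, if_false]
        intro ω ω' hω h1 j hj
        exact (h1 j hj).trans (Iw_mono hω j))
  rw [Finset.prod_range_succ, Finset.prod_range_one] at h
  simp only [if_true, one_ne_zero, if_false] at h
  unfold aG
  refine h.trans (measureReal_mono ?_ (measure_ne_top _ _))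
  intro z hz
  have h0 := Set.mem_iInter₂.1 hz 0 (by simp)
  have h1 := Set.mem_iInter₂.1 hz 1 (by simp)
  simp only [if_true, one_ne_zero, if_false] at h0 h1
  intro j hj
  rw [Finset.mem_Icc] at hj
  rcases Nat.le_total j a with hja | hja
  · exact h0 j (Finset.mem_Icc.2 ⟨hj.1, hja⟩)
  · exact h1 j (Finset.mem_Icc.2 ⟨hja, hj.2⟩)

/-! ### Slepian -/

theorem cH_norm_pos {n x : ℕ} (hn : 1 ≤ n) (hx : 1 ≤ x) :
    0 < ∑ j ∈ Finset.Icc 1 n, (cH x j) ^ 2 := by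
  refine Finset.sum_pos' (fun j _ => sq_nonneg _) ⟨1, Finset.mem_Icc.2 ⟨le_rfl, hn⟩, ?_⟩
  have h1 : 0 < cH x 1 := by
    unfold cH
    refine Finset.sum_pos (fun u hu => ?_) ⟨1, Finset.mem_Icc.2 ⟨le_rfl, hx⟩⟩
    have hu1 := (Finset.mem_Icc.1 hu).1
    have : (0 : ℝ) < u := by exact_mod_cast hu1
    positivity
  positivity

theorem cI_norm_pos {n w : ℕ} (hn : 1 ≤ n) (hw : 1 ≤ w) :
    0 < ∑ j ∈ Finset.Icc 1 n, (cI w j) ^ 2 := by
  refine Finset.sum_pos' (fun j _ => sq_nonneg _) ⟨1, Finset.mem_Icc.2 ⟨le_rfl, hn⟩, ?_⟩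
  have h1 : 0 < cI w 1 := by
    unfold cI
    rw [if_pos hw]
    have : (0 : ℝ) < w := by exact_mod_cast hw
    push_cast
    linarith
  positivity

theorem norm_one {n : ℕ} {f : ℕ → ℝ} (h : 0 < ∑ j ∈ Finset.Icc 1 n, (f j) ^ 2) :
    ∑ j ∈ Finset.Icc 1 n, (f j / Real.sqrt (∑ l ∈ Finset.Icc 1 n, (f l) ^ 2)) ^ 2 = 1 := by
  have e : ∀ j, (f j / Real.sqrt (∑ l ∈ Finset.Icc 1 n, (f l) ^ 2)) ^ 2 =
      (f j) ^ 2 / ∑ l ∈ Finset.Icc 1 n, (f l) ^ 2 := by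
    intro j
    rw [div_pow, Real.sq_sqrt h.le]
  simp only [e]
  rw [← Finset.sum_div, div_self h.ne']

theorem slep_step (h2 : S_slep) (h4 : S_coef) {h : ℝ} (hh : 0 < h) (hh1 : h ≤ 1) {w0 i1 N n : ℕ}
    (hcov : ∀ w w' : ℕ, w0 ≤ w → (1 + h / 2) * (w : ℝ) ≤ w' → xr w' ≤ n → w' ≤ n →
      (∑ j ∈ Finset.Icc 1 n, cH (xr w) j * cH (xr w') j) /
        (Real.sqrt (∑ j ∈ Finset.Icc 1 n, (cH (xr w) j) ^ 2) *
          Real.sqrt (∑ j ∈ Finset.Icc 1 n, (cH (xr w') j) ^ 2))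
      ≤ (∑ j ∈ Finset.Icc 1 n, cI w j * cI w' j) /
        (Real.sqrt (∑ j ∈ Finset.Icc 1 n, (cI w j) ^ 2) *
          Real.sqrt (∑ j ∈ Finset.Icc 1 n, (cI w' j) ^ 2)))
    (hw0 : w0 ≤ Wg h i1) (hi1 : 4 / h ≤ (1 + h) ^ i1) (hn : xr (Wg h N) ≤ n) :
    GA.real {z | ∀ i ∈ Finset.Icc i1 N, 0 ≤ Hw z (xr (Wg h i))} ≤
      GA.real {z | ∀ i ∈ Finset.Icc i1 N, 0 ≤ Iw z (Wg h i)} := by
  have hsq : ∀ i, 1 ≤ xr (Wg h i) := fun i => (Wg_pos hh i).trans (le_xr (Wg_pos hh i))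
  have hn1 : 1 ≤ n := (hsq N).trans hn
  have hWn : ∀ i, i ≤ N → xr (Wg h i) ≤ n := fun i hi =>
    (xr_mono (Wg_mono hh hi)).trans hn
  have hle : ∀ i, i ≤ N → Wg h i ≤ n := fun i hi =>
    (le_xr (Wg_pos hh i)).trans (hWn i hi)
  have pH : ∀ i, 0 < ∑ j ∈ Finset.Icc 1 n, (cH (xr (Wg h i)) j) ^ 2 := fun i =>
    cH_norm_pos hn1 (hsq i)
  have pI : ∀ i, 0 < ∑ j ∈ Finset.Icc 1 n, (cI (Wg h i) j) ^ 2 := fun i =>
    cI_norm_pos hn1 (Wg_pos hh i)
  have key : ∀ i k, i ∈ Finset.Icc i1 N → k ∈ Finset.Icc i1 N → i < k →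
      ∑ j ∈ Finset.Icc 1 n, cH (xr (Wg h i)) j /
        Real.sqrt (∑ l ∈ Finset.Icc 1 n, (cH (xr (Wg h i)) l) ^ 2) *
        (cH (xr (Wg h k)) j / Real.sqrt (∑ l ∈ Finset.Icc 1 n, (cH (xr (Wg h k)) l) ^ 2)) ≤
      ∑ j ∈ Finset.Icc 1 n, cI (Wg h i) j /
        Real.sqrt (∑ l ∈ Finset.Icc 1 n, (cI (Wg h i) l) ^ 2) *
        (cI (Wg h k) j / Real.sqrt (∑ l ∈ Finset.Icc 1 n, (cI (Wg h k) l) ^ 2)) := by
    intro i k hi hk hik
    rw [Finset.mem_Icc] at hi hk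
    have h5 := hcov (Wg h i) (Wg h k) (hw0.trans (Wg_mono hh hi.1))
      (Wg_ratio hh hh1 (hi1.trans (pow_le_pow_right₀ (by linarith) hi.1)) hik) (hWn k hk.2)
      (hle k hk.2)
    simp only [div_mul_div_comm]
    rw [← Finset.sum_div, ← Finset.sum_div]
    exact h5
  have h5 := h2 n (Finset.Icc i1 N)
    (fun i j => cH (xr (Wg h i)) j /
      Real.sqrt (∑ l ∈ Finset.Icc 1 n, (cH (xr (Wg h i)) l) ^ 2))
    (fun i j => cI (Wg h i) j / Real.sqrt (∑ l ∈ Finset.Icc 1 n, (cI (Wg h i) l) ^ 2))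
    (fun i _ => by
      show ∑ j ∈ Finset.Icc 1 n, (cH (xr (Wg h i)) j /
        Real.sqrt (∑ l ∈ Finset.Icc 1 n, (cH (xr (Wg h i)) l) ^ 2)) ^ 2 =
        ∑ j ∈ Finset.Icc 1 n, (cI (Wg h i) j /
          Real.sqrt (∑ l ∈ Finset.Icc 1 n, (cI (Wg h i) l) ^ 2)) ^ 2
      rw [norm_one (pH i), norm_one (pI i)])
    (fun i hi k hk hik => by
      rcases Nat.lt_or_gt_of_ne hik with h6 | h6
      · exact key i k hi hk h6
      · have h7 := key k i hk hi h6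
        show ∑ j ∈ Finset.Icc 1 n, cH (xr (Wg h i)) j /
          Real.sqrt (∑ l ∈ Finset.Icc 1 n, (cH (xr (Wg h i)) l) ^ 2) *
          (cH (xr (Wg h k)) j / Real.sqrt (∑ l ∈ Finset.Icc 1 n, (cH (xr (Wg h k)) l) ^ 2)) ≤
          ∑ j ∈ Finset.Icc 1 n, cI (Wg h i) j /
          Real.sqrt (∑ l ∈ Finset.Icc 1 n, (cI (Wg h i) l) ^ 2) *
          (cI (Wg h k) j / Real.sqrt (∑ l ∈ Finset.Icc 1 n, (cI (Wg h k) l) ^ 2))
        refine le_trans (le_of_eq ?_) (h7.trans (le_of_eq ?_))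
        · exact Finset.sum_congr rfl (fun j _ => mul_comm _ _)
        · exact Finset.sum_congr rfl (fun j _ => mul_comm _ _))
  refine le_trans (le_of_eq ?_) (h5.trans (le_of_eq ?_))
  · congr 1
    ext z
    rw [Set.mem_ofPred_eq, Set.mem_ofPred_eq]
    refine forall₂_congr (fun i hi => ?_)
    have hi2 := (Finset.mem_Icc.1 hi).2
    rw [(h4 n (xr (Wg h i)) z (hWn i hi2)).1]
    have e : ∑ j ∈ Finset.Icc 1 n, cH (xr (Wg h i)) j /
        Real.sqrt (∑ l ∈ Finset.Icc 1 n, (cH (xr (Wg h i)) l) ^ 2) * z j =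
        (∑ j ∈ Finset.Icc 1 n, cH (xr (Wg h i)) j * z j) /
        Real.sqrt (∑ l ∈ Finset.Icc 1 n, (cH (xr (Wg h i)) l) ^ 2) := by
      rw [Finset.sum_div]
      exact Finset.sum_congr rfl (fun j _ => by ring)
    rw [e, le_div_iff₀ (Real.sqrt_pos.2 (pH i)), zero_mul]
  · congr 1
    ext z
    rw [Set.mem_ofPred_eq, Set.mem_ofPred_eq]
    refine forall₂_congr (fun i hi => ?_)
    have hi2 := (Finset.mem_Icc.1 hi).2
    rw [(h4 n (Wg h i) z (hle i hi2)).2]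
    have e : ∑ j ∈ Finset.Icc 1 n, cI (Wg h i) j /
        Real.sqrt (∑ l ∈ Finset.Icc 1 n, (cI (Wg h i) l) ^ 2) * z j =
        (∑ j ∈ Finset.Icc 1 n, cI (Wg h i) j * z j) /
        Real.sqrt (∑ l ∈ Finset.Icc 1 n, (cI (Wg h i) l) ^ 2) := by
      rw [Finset.sum_div]
      exact Finset.sum_congr rfl (fun j _ => by ring)
    rw [e, le_div_iff₀ (Real.sqrt_pos.2 (pI i)), zero_mul]

/-! ### the assembly -/

theorem rt3 (h1 : S_low1) (h2 : S_slep) (h3 : S_cov3) (h4 : S_coef) (h5 : S_grid)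
    (h6 : S_gharris) (h7 : S_acr) (h8 : S_quart) : Pool.Agent.H174.GP.S_rt3 := by
  intro θ hθ
  by_contra hcon
  push Not at hcon
  have hr3 := r3_sq
  have hr3a := r3_lo
  have hr3b := r3_hi
  obtain ⟨s, hs⟩ : ∃ s : ℝ, s = Real.sqrt 3 := ⟨_, rfl⟩
  rw [← hs] at hr3 hr3a hr3b hcon
  obtain ⟨ε, hε0, hε1, hε2⟩ : ∃ ε : ℝ, 0 < ε ∧ ε ≤ 1 / 80 ∧ θ + ε ≤ s / 12 - 9 * ε := by
    refine ⟨min (1 / 80) ((s / 12 - θ) / 10), lt_min (by norm_num) (by linarith),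
      min_le_left _ _, ?_⟩
    have := min_le_right (1 / 80 : ℝ) ((s / 12 - θ) / 10)
    linarith
  obtain ⟨h, hh, hh1, i0, n0, hgrid⟩ := h5 ε hε0 (by linarith)
  obtain ⟨w0, hw0, hcov⟩ := h3 (h / 2) (by positivity)
  obtain ⟨L0, hL0⟩ := h1 θ hθ ε hε0 (by linarith)
  obtain ⟨⟨c, hc, κ1, hκ1, hacr⟩, _⟩ := h7
  obtain ⟨n1, hn1⟩ := h8 ε hε0
  obtain ⟨r, hr⟩ := exists_nat_ge (κ1 / ε)
  have hκr : κ1 ≤ ε * r := by
    rw [div_le_iff₀ hε0] at hr
    linarith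
  have hr1 : 1 ≤ r := by
    have h9 : (0 : ℝ) < r := lt_of_lt_of_le (by positivity) hr
    exact_mod_cast h9
  obtain ⟨τ, hτ⟩ : ∃ τ : ℝ, τ = max (θ + ε) 0 := ⟨_, rfl⟩
  have hτ0 : 0 ≤ τ := by rw [hτ]; exact le_max_right _ _
  have hτθ : θ + ε ≤ τ := by rw [hτ]; exact le_max_left _ _
  have hτ1 : τ ≤ s / 12 - 9 * ε := by rw [hτ]; exact max_le hε2 (by linarith)
  obtain ⟨p, hp⟩ : ∃ p : ℝ, p = (s + ε) / (1 - ε) := ⟨_, rfl⟩
  have hpm : p * (1 - ε) = s + ε := by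
    rw [hp]
    exact div_mul_cancel₀ _ (by linarith)
  have hp2 : 1 ≤ p := by
    rw [hp, le_div_iff₀ (by linarith)]
    linarith
  have hlogh : 0 < Real.log (1 + h) := Real.log_pos (by linarith)
  have hlog2 : 0 < Real.log 2 := Real.log_pos (by norm_num)
  obtain ⟨g, hg⟩ : ∃ g : ℝ, g = 1 / 4 - 3 * ε - τ * (1 + ε) * p := ⟨_, rfl⟩
  have hg0 : 0 < g := by
    have h9 : τ * (1 + ε) * p < 1 / 4 - 3 * ε := by
      rw [hp, mul_div_assoc', div_lt_iff₀ (by linarith)]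
      have h10 : τ * (1 + ε) * (s + ε) ≤ (s / 12 - 9 * ε) * (1 + ε) * (s + ε) :=
        mul_le_mul_of_nonneg_right (mul_le_mul_of_nonneg_right hτ1 (by linarith)) (by linarith)
      have e1 : (s / 12 - 9 * ε) * (1 + ε) * (s + ε) = s * s / 12 + s * s / 12 * ε +
          s / 12 * ε + s / 12 * (ε * ε) - 9 * (ε * s) - 9 * (ε * ε) - 9 * (ε * ε) * s -
          9 * (ε * ε) * ε := by ring
      have e2 : (1 / 4 - 3 * ε) * (1 - ε) = 1 / 4 - 13 / 4 * ε + 3 * (ε * ε) := by ring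
      have h11 : ε * (17 / 10) ≤ ε * s := mul_le_mul_of_nonneg_left hr3a hε0.le
      have h12 : s * ε ≤ 9 / 5 * ε := mul_le_mul_of_nonneg_right hr3b hε0.le
      have h13 : s * (ε * ε) ≤ 9 / 5 * (ε * ε) :=
        mul_le_mul_of_nonneg_right hr3b (by positivity)
      have h14 : 0 < ε * ε := by positivity
      have h15 : 0 ≤ (ε * ε) * s := by positivity
      have h16 : 0 ≤ (ε * ε) * ε := by positivity
      rw [e1, hr3] at h10
      rw [e2]
      linarith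
    rw [hg]
    linarith
  obtain ⟨K, hK⟩ : ∃ K : ℝ, K = κ1 * Real.log 2 + τ * (1 + ε) * Real.log 2 - Real.log c :=
    ⟨_, rfl⟩
  obtain ⟨D, hD⟩ : ∃ D : ℝ, D = Real.log 2 + p * (Real.log 2 + r * Real.log (1 + h)) := ⟨_, rfl⟩
  have hD0 : 0 < D := by
    rw [hD]
    positivity
  have hQ : Tendsto (fun i : ℕ => (1 + h) ^ i) atTop atTop :=
    tendsto_pow_atTop_atTop_of_one_lt (by linarith)
  have e5 : ∀ᶠ i : ℕ in atTop, (i : ℝ) ^ 9 / (1 + h) ^ i < 1 / D ^ 9 :=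
    (tendsto_pow_const_div_const_pow_of_one_lt 9 (by linarith : 1 < 1 + h)).eventually_lt_const
      (by positivity)
  have e6 := hQ.eventually_gt_atTop ((w0 : ℝ) + 4 / h + L0 + n1 + Real.exp (K / g) +
    (2 : ℝ) ^ (1 / ε))
  obtain ⟨i, hi5, hi6, hi0, hin0, hi1⟩ := (e5.and (e6.and ((eventually_ge_atTop i0).and
    ((eventually_ge_atTop n0).and (eventually_ge_atTop 1))))).exists
  -- the numbers
  have hh4 : 0 < 4 / h := by positivity
  have hexpK := Real.exp_pos (K / g)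
  have h2ε : 0 < (2 : ℝ) ^ (1 / ε) := Real.rpow_pos_of_pos (by norm_num) _
  have hw0r : (0 : ℝ) ≤ w0 := Nat.cast_nonneg _
  have hL0r : (0 : ℝ) ≤ L0 := Nat.cast_nonneg _
  have hn1r : (0 : ℝ) ≤ n1 := Nat.cast_nonneg _
  obtain ⟨N, hN⟩ : ∃ N : ℕ, N = r * i := ⟨_, rfl⟩
  have hiN : i ≤ N := by
    rw [hN]
    exact Nat.le_mul_of_pos_left i hr1
  obtain ⟨WN, hWN⟩ : ∃ WN : ℕ, WN = Wg h N := ⟨_, rfl⟩
  obtain ⟨Wi, hWi⟩ : ∃ Wi : ℕ, Wi = Wg h i := ⟨_, rfl⟩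
  have hWiQ : (1 + h) ^ i ≤ (Wi : ℝ) := by rw [hWi]; exact Wg_ge h i
  have hWNQ : (1 + h) ^ N ≤ (WN : ℝ) := by rw [hWN]; exact Wg_ge h N
  have hWiWN : Wi ≤ WN := by rw [hWi, hWN]; exact Wg_mono hh hiN
  have hWi1 : 1 ≤ Wi := by rw [hWi]; exact Wg_pos hh i
  have hWN1 : 1 ≤ WN := hWi1.trans hWiWN
  have hWi1r : (1 : ℝ) ≤ Wi := by exact_mod_cast hWi1
  have hWN1r : (1 : ℝ) ≤ WN := by exact_mod_cast hWN1
  have hQiWN : (1 + h) ^ i ≤ (WN : ℝ) := hWiQ.trans (by exact_mod_cast hWiWN)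
  obtain ⟨L, hL⟩ : ∃ L : ℕ, L = ⌈(WN : ℝ) ^ p⌉₊ := ⟨_, rfl⟩
  have hWNp1 : 1 ≤ (WN : ℝ) ^ p := Real.one_le_rpow hWN1r (by linarith)
  have hLa : (WN : ℝ) ^ p ≤ L := by rw [hL]; exact Nat.le_ceil _
  have hLb : (L : ℝ) ≤ 2 * (WN : ℝ) ^ p := by
    have h9 : (L : ℝ) < (WN : ℝ) ^ p + 1 := by
      rw [hL]
      exact Nat.ceil_lt_add_one (by linarith)
    linarith
  have hL1 : (1 : ℝ) ≤ L := hWNp1.trans hLa
  have hWNL : (WN : ℝ) ≤ L := by
    have h9 := Real.rpow_le_rpow_of_exponent_le hWN1r hp2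
    rw [Real.rpow_one] at h9
    exact h9.trans hLa
  have hLL0 : L0 ≤ L := by
    have h9 : (L0 : ℝ) ≤ L := by linarith
    exact_mod_cast h9
  have hb : (xr WN : ℝ) ≤ (L : ℝ) ^ (1 - ε) := by
    have h9 : ((WN : ℝ) ^ p) ^ (1 - ε) ≤ (L : ℝ) ^ (1 - ε) :=
      Real.rpow_le_rpow (by linarith) hLa (by linarith)
    rw [← Real.rpow_mul (by linarith), hpm, Real.rpow_add (by linarith)] at h9
    have h10 : 2 ≤ (WN : ℝ) ^ ε := by
      have h11 : ((2 : ℝ) ^ (1 / ε)) ^ ε ≤ (WN : ℝ) ^ ε :=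
        Real.rpow_le_rpow h2ε.le (by linarith) hε0.le
      rw [← Real.rpow_mul (by norm_num), one_div, inv_mul_cancel₀ hε0.ne', Real.rpow_one] at h11
      exact h11
    have h12 := xr_le hWN1
    rw [← hs] at h12
    have h13 : 0 ≤ (WN : ℝ) ^ s := Real.rpow_nonneg (by linarith) _
    have h14 := mul_le_mul_of_nonneg_left h10 h13
    linarith
  have hWNLsq : xr WN ≤ L := by
    have h9 : (L : ℝ) ^ (1 - ε) ≤ L := by
      have h10 := Real.rpow_le_rpow_of_exponent_le hL1 (by linarith : 1 - ε ≤ 1)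
      rwa [Real.rpow_one] at h10
    exact_mod_cast hb.trans h9
  have hP1 := hL0 L hLL0 (xr WN) hb
  -- logarithms
  have hlWN0 : 0 ≤ Real.log WN := Real.log_nonneg hWN1r
  have hlWN : Real.log WN ≤ Real.log 2 + r * i * Real.log (1 + h) := by
    have h9 : (WN : ℝ) ≤ 2 * (1 + h) ^ N := by rw [hWN]; exact Wg_le2 hh N
    have h10 := Real.log_le_log (by linarith) h9
    rw [Real.log_mul (by norm_num) (by positivity), Real.log_pow, hN] at h10
    push_cast at h10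
    exact h10
  have hlWN2 : r * i * Real.log (1 + h) ≤ Real.log WN := by
    have h10 := Real.log_le_log (by positivity) hWNQ
    rw [Real.log_pow, hN] at h10
    push_cast at h10
    exact h10
  have hlWi : Real.log Wi ≤ Real.log 2 + i * Real.log (1 + h) := by
    have h9 : (Wi : ℝ) ≤ 2 * (1 + h) ^ i := by rw [hWi]; exact Wg_le2 hh i
    have h10 := Real.log_le_log (by linarith) h9
    rw [Real.log_mul (by norm_num) (by positivity), Real.log_pow] at h10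
    exact h10
  have hlL0 : 0 ≤ Real.log L := Real.log_nonneg hL1
  have hlL : Real.log L ≤ Real.log 2 + p * Real.log WN := by
    have h10 := Real.log_le_log (by linarith) hLb
    rw [Real.log_mul (by norm_num) (by positivity), Real.log_rpow (by linarith)] at h10
    exact h10
  have hi1r : (1 : ℝ) ≤ i := by exact_mod_cast hi1
  have hlLD : Real.log L ≤ D * i := by
    have h9 : p * Real.log WN ≤ p * (Real.log 2 + r * i * Real.log (1 + h)) :=
      mul_le_mul_of_nonneg_left hlWN (by linarith)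
    have h10 : Real.log 2 ≤ Real.log 2 * i := le_mul_of_one_le_right hlog2.le hi1r
    have h11 : p * Real.log 2 ≤ p * Real.log 2 * i :=
      le_mul_of_one_le_right (by positivity) hi1r
    have e1 : D * i = Real.log 2 * i + p * Real.log 2 * i + p * (r * i * Real.log (1 + h)) := by
      rw [hD]
      ring
    have e2 : p * (Real.log 2 + r * i * Real.log (1 + h)) =
        p * Real.log 2 + p * (r * i * Real.log (1 + h)) := by ring
    rw [e2] at h9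
    rw [e1]
    linarith
  have hceil : ⌈(Real.log L) ^ 9⌉₊ ≤ xr Wi := by
    rw [Nat.ceil_le]
    have h9 : (Real.log L) ^ 9 ≤ (D * i) ^ 9 := pow_le_pow_left₀ hlL0 hlLD 9
    have h10 : (D * i) ^ 9 ≤ (1 + h) ^ i := by
      rw [div_lt_div_iff₀ (by positivity) (by positivity)] at hi5
      rw [mul_pow]
      linarith
    have h11 : (Wi : ℝ) ≤ (xr Wi : ℝ) := by exact_mod_cast le_xr hWi1
    linarith
  -- the chain of probabilities
  have hP2 : GA.real {z | ∀ x ∈ Finset.Icc ⌈(Real.log L) ^ 9⌉₊ (xr WN), 0 ≤ Hw z x} ≤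
      GA.real {z | ∀ k ∈ Finset.Icc i N, 0 ≤ Hw z (xr (Wg h k))} := by
    refine measureReal_mono ?_ (measure_ne_top _ _)
    intro z hz k hk
    rw [Finset.mem_Icc] at hk
    refine hz _ (Finset.mem_Icc.2 ⟨hceil.trans ?_, ?_⟩)
    · rw [hWi]
      exact xr_mono (Wg_mono hh hk.1)
    · rw [hWN]
      exact xr_mono (Wg_mono hh hk.2)
  have hP3 := slep_step (w0 := w0) (i1 := i) (N := N) (n := L) h2 h4 hh hh1
    (fun w w' hw hww hwL hwL' => hcov w w' L hw hww hwL hwL')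
    (by
      have h9 : (w0 : ℝ) ≤ (Wg h i : ℝ) := by
        rw [← hWi]
        linarith
      exact_mod_cast h9)
    (by linarith) (by rw [← hWN]; exact hWNLsq)
  have hP4 := hgrid i N hi0 hiN (hin0.trans hiN)
  have hP5 := harris_step h6 Wi WN hWiWN
  have hP6 := hacr Wi hWi1
  have hP7 := hn1 WN (by
    have h9 : (n1 : ℝ) ≤ WN := by linarith
    exact_mod_cast h9)
  rw [← hWi, ← hWN] at hP4
  obtain ⟨P4, hP4e⟩ : ∃ P4 : ℝ, P4 = GA.real {z | ∀ w ∈ Finset.Icc Wi WN, 0 ≤ Iw z w} :=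
    ⟨_, rfl⟩
  rw [← hP4e] at hP4 hP5
  have hP40 : 0 ≤ P4 := by rw [hP4e]; exact measureReal_nonneg
  have hx0 : 0 < (L : ℝ) ^ (-θ - ε) := Real.rpow_pos_of_pos (by linarith) _
  have hxP : ((L : ℝ) ^ (-θ - ε)) ^ (1 + ε) ≤ (WN : ℝ) ^ ε * P4 :=
    (Real.rpow_le_rpow hx0.le (hP1.trans (hP2.trans hP3)) (by linarith)).trans hP4
  have hcW0 : 0 < c * (Wi : ℝ) ^ (-κ1) :=
    mul_pos hc (Real.rpow_pos_of_pos (by linarith) _)
  have hfin : c * (Wi : ℝ) ^ (-κ1) * ((L : ℝ) ^ (-θ - ε)) ^ (1 + ε) ≤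
      (WN : ℝ) ^ ε * (WN : ℝ) ^ (-(1 / 4) + ε : ℝ) := by
    calc c * (Wi : ℝ) ^ (-κ1) * ((L : ℝ) ^ (-θ - ε)) ^ (1 + ε)
        ≤ c * (Wi : ℝ) ^ (-κ1) * ((WN : ℝ) ^ ε * P4) := mul_le_mul_of_nonneg_left hxP hcW0.le
      _ = (WN : ℝ) ^ ε * (c * (Wi : ℝ) ^ (-κ1) * P4) := by ring
      _ ≤ (WN : ℝ) ^ ε * (aG Wi * P4) := by
          apply mul_le_mul_of_nonneg_left _ (Real.rpow_nonneg (by linarith) _)
          exact mul_le_mul_of_nonneg_right hP6 hP40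
      _ ≤ (WN : ℝ) ^ ε * (WN : ℝ) ^ (-(1 / 4) + ε : ℝ) := by
          apply mul_le_mul_of_nonneg_left _ (Real.rpow_nonneg (by linarith) _)
          exact hP5.trans hP7
  have hWi0 : (0 : ℝ) < Wi := by linarith
  have hWN0 : (0 : ℝ) < WN := by linarith
  have hL0' : (0 : ℝ) < L := by linarith
  have hlog := Real.log_le_log (mul_pos hcW0 (Real.rpow_pos_of_pos hx0 _)) hfin
  rw [Real.log_mul hcW0.ne' (Real.rpow_pos_of_pos hx0 _).ne',
    Real.log_mul hc.ne' (Real.rpow_pos_of_pos hWi0 _).ne', Real.log_rpow hWi0,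
    Real.log_rpow hx0, Real.log_rpow hL0',
    Real.log_mul (Real.rpow_pos_of_pos hWN0 _).ne' (Real.rpow_pos_of_pos hWN0 _).ne',
    Real.log_rpow hWN0, Real.log_rpow hWN0] at hlog
  have hA : (θ + ε) * (1 + ε) * Real.log L ≤ τ * (1 + ε) * (Real.log 2 + p * Real.log WN) := by
    have h9 : (θ + ε) * (1 + ε) ≤ τ * (1 + ε) := mul_le_mul_of_nonneg_right hτθ (by linarith)
    have h10 := mul_le_mul_of_nonneg_right h9 hlL0
    have h11 : 0 ≤ τ * (1 + ε) := by positivity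
    exact h10.trans (mul_le_mul_of_nonneg_left hlL h11)
  have hB : κ1 * Real.log Wi ≤ κ1 * Real.log 2 + ε * Real.log WN := by
    have h9 := mul_le_mul_of_nonneg_left hlWi hκ1.le
    have h10 : κ1 * (i * Real.log (1 + h)) ≤ ε * r * (i * Real.log (1 + h)) :=
      mul_le_mul_of_nonneg_right hκr (by positivity)
    have h11 := mul_le_mul_of_nonneg_left hlWN2 hε0.le
    have e1 : κ1 * (Real.log 2 + i * Real.log (1 + h)) =
        κ1 * Real.log 2 + κ1 * (i * Real.log (1 + h)) := by ring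
    have e2 : ε * r * (i * Real.log (1 + h)) = ε * (r * i * Real.log (1 + h)) := by ring
    rw [e1] at h9
    rw [e2] at h10
    linarith
  have hC : g * Real.log WN ≤ K := by
    have e1 : g * Real.log WN = 1 / 4 * Real.log WN - 3 * (ε * Real.log WN) -
        τ * (1 + ε) * (p * Real.log WN) := by
      rw [hg]
      ring
    have e2 : (1 + ε) * ((-θ - ε) * Real.log L) = -((θ + ε) * (1 + ε) * Real.log L) := by ring
    have e3 : τ * (1 + ε) * (Real.log 2 + p * Real.log WN) =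
        τ * (1 + ε) * Real.log 2 + τ * (1 + ε) * (p * Real.log WN) := by ring
    have e4 : ε * Real.log WN + (-(1 / 4) + ε) * Real.log WN =
        2 * (ε * Real.log WN) - 1 / 4 * Real.log WN := by ring
    rw [e2, e4] at hlog
    rw [e3] at hA
    rw [e1, hK]
    linarith
  have hE : K / g < Real.log WN := by
    have h9 : Real.exp (K / g) < WN := by linarith
    have h10 := Real.log_lt_log (Real.exp_pos _) h9
    rwa [Real.log_exp] at h10
  rw [div_lt_iff₀ hg0] at hE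
  linarith

end Pool.Agent.H747.GP174.R3

namespace Pool.Agent.H747.GP174

open Pool.Agent.H174.GP

theorem gp_rt3 (h1 : S_low1) (h2 : S_slep) (h3 : S_cov3) (h4 : S_coef) (h5 : S_grid)
    (h6 : S_gharris) (h7 : S_acr) (h8 : S_quart) : Pool.Agent.H174.GP.S_rt3 :=
  R3.rt3 h1 h2 h3 h4 h5 h6 h7 h8

end Pool.Agent.H747.GP174
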